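import Pool.Agent.H381R4.CM.Stubs

set_option autoImplicit false
open MeasureTheory Matrix Filter Topology
open scoped ENNReal BigOperators Pointwise

namespace Pool.Agent.H381CM

namespace EXPx

theorem XX_sum (p : Polynomial ℝ) (M : ℕ) (hM : p.natDegree < M) (t : ℝ) :
    XX p t = ∑ m : Fin M, p.coeff (m : ℕ) * Real.exp (-(((m : ℕ) : ℝ) * t)) := by
  unfold XX
  rw [Polynomial.eval_eq_sum_range' hM, ← Fin.sum_univ_eq_sum_range
    (fun m => p.coeff m * Real.exp (-t) ^ m) M]
  apply Finset.sum_congr rfl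
  intro m _
  rw [← Real.exp_nat_mul]
  congr 2
  ring

theorem QQ_sum (p : Polynomial ℝ) (M : ℕ) (hM : p.natDegree < M) (t : ℝ) :
    QQ p t = ∑ m : Fin M, p.coeff (m : ℕ) * Real.exp (-(((m : ℕ) : ℝ) * t)) * ((m : ℕ) : ℝ) := by
  unfold QQ
  rw [Polynomial.derivative_eval, Polynomial.sum_over_range' p _ M hM, Finset.mul_sum,
    ← Fin.sum_univ_eq_sum_range
      (fun m => Real.exp (-t) * (p.coeff m * (m : ℝ) * Real.exp (-t) ^ (m - 1))) M]
  · apply Finset.sum_congr rfl
    intro m _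
    have e : Real.exp (-(((m : ℕ) : ℝ) * t)) = Real.exp (-t) ^ (m : ℕ) := by
      rw [← Real.exp_nat_mul]; congr 1; ring
    rw [e]
    rcases Nat.eq_zero_or_pos (m : ℕ) with h0 | h0
    · rw [h0]; simp
    · obtain ⟨k, hk⟩ : ∃ k, (m : ℕ) = k + 1 := ⟨(m : ℕ) - 1, by omega⟩
      rw [hk, Nat.add_sub_cancel, pow_succ]
      ring
  · intro n
    simp

theorem det_zero {d : ℕ} {ι : Type} (u : ι → V d) (f : Fin d → ι)
    (hf : ¬ Function.Injective f) : (UU u f).det = 0 := by
  unfold Function.Injective at hf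
  push Not at hf
  obtain ⟨i, j, hij, hne⟩ := hf
  apply Matrix.det_zero_of_row_eq hne
  show (fun r => u (f r)) i = (fun r => u (f r)) j
  simp only [hij]

open Classical in
theorem prod_ite {d : ℕ} {ι : Type} [Fintype ι] (f : Fin d → ι) (hf : Function.Injective f)
    (w : ι → ℝ) : (∏ k, if ∃ r, f r = k then w k else 1) = ∏ r, w (f r) := by
  rw [← Finset.prod_filter]
  have e : (Finset.univ.filter fun k => ∃ r, f r = k) = Finset.univ.image f := by
    ext k
    simp
  rw [e, Finset.prod_image (fun a _ b _ h => hf h)]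

end EXPx

open Classical in
theorem T_EXP (hdet : S_DET) : S_EXP := by
  intro d ι _ u p M hM x y z
  have hfac : ∀ f : Fin d → ι, (UU u f).det ^ 2 *
      ∏ k, (if ∃ r, f r = k then QQ (p k) (tt u x y z k) else XX (p k) (tt u x y z k)) =
      ∑ m : ι → Fin M, (∏ k, (p k).coeff (m k : ℕ)) *
        Real.exp (-∑ k, ((m k : ℕ) : ℝ) * tt u x y z k) *
        ((UU u f).det ^ 2 * ∏ r, ((m (f r) : ℕ) : ℝ)) := by
    intro f
    by_cases hf : Function.Injective f
    · have h1 : ∀ k, (if ∃ r, f r = k then QQ (p k) (tt u x y z k) else XX (p k) (tt u x y z k)) =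
          ∑ m : Fin M, ((p k).coeff (m : ℕ) * Real.exp (-(((m : ℕ) : ℝ) * tt u x y z k)) *
            (if ∃ r, f r = k then ((m : ℕ) : ℝ) else 1)) := by
        intro k
        split_ifs with h
        · exact EXPx.QQ_sum _ M (hM k) _
        · rw [EXPx.XX_sum _ M (hM k)]
          simp
      rw [Finset.prod_congr rfl (fun k _ => h1 k), Finset.prod_univ_sum, Fintype.piFinset_univ,
        Finset.mul_sum]
      apply Finset.sum_congr rfl
      intro m _
      rw [Finset.prod_mul_distrib, Finset.prod_mul_distrib,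
        EXPx.prod_ite f hf (fun k => ((m k : ℕ) : ℝ)), ← Real.exp_sum, ← Finset.sum_neg_distrib]
      ring
    · rw [EXPx.det_zero u f hf]
      simp
  unfold GG
  rw [Finset.sum_congr rfl (fun f _ => hfac f), Finset.sum_comm, Finset.mul_sum]
  apply Finset.sum_congr rfl
  intro m _
  rw [← Finset.mul_sum]
  have h2 := hdet d ι u (fun k => ((m k : ℕ) : ℝ))
  have h3 : (∑ f : Fin d → ι, (UU u f).det ^ 2 * ∏ r, ((m (f r) : ℕ) : ℝ)) =
      (AA u (fun k => ((m k : ℕ) : ℝ))).det * (d.factorial : ℝ) := by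
    rw [h2]
  rw [h3]
  have hd : (d.factorial : ℝ) ≠ 0 := by exact_mod_cast d.factorial_ne_zero
  have hp : Real.pi ^ d ≠ 0 := pow_ne_zero _ Real.pi_ne_zero
  field_simp

end Pool.Agent.H381CM
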